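import Mathlib

namespace Pool.Agent.Results.MP_5f67f4_co.LexSegment

/-- A word of length `n` over the alphabet `[r] = {1,…,r}`; the letter `a : Fin r` stands for the
symbol `a + 1`. -/
abbrev Word (r n : ℕ) := Fin n → Fin r

/-- `c_x(w)`: the number of occurrences of the symbol `x` in `w`. -/
def cnt {r n : ℕ} (x : ℕ) (w : Word r n) : ℕ :=
  (Finset.univ.filter (fun i => ((w i : Fin r) : ℕ) + 1 = x)).card

/-- The signature `(c_r(w), c_{r-1}(w), …, c_1(w))`. -/
def sig {r n : ℕ} (w : Word r n) : Fin r → ℕ := fun i => cnt (r - i) w

/-- The lexicographic order on signatures: `p = q`, or `p i < q i` at the first coordinate `i`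
at which they differ. -/
def lexLE {r : ℕ} (p q : Fin r → ℕ) : Prop :=
  p = q ∨ ∃ i, (∀ j, j < i → p j = q j) ∧ p i < q i

instance {r : ℕ} (p q : Fin r → ℕ) : Decidable (lexLE p q) := by unfold lexLE; infer_instance

/-- The word obtained from `w` by deleting the letter at position `p`. -/
def del {r n : ℕ} (w : Word r (n + 1)) (p : Fin (n + 1)) : Word r n := fun i => w (p.succAbove i)

/-- The deletion shadow of a family of words of length `n + 1`. -/
def shadow {r n : ℕ} (F : Finset (Word r (n + 1))) : Finset (Word r n) :=
  F.biUnion (fun w => Finset.univ.image (fun p => del w p))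

/-- The family `F_s` of all words whose signature is lexicographically at most `s`. -/
def fam (r n : ℕ) (s : Fin r → ℕ) : Finset (Word r n) :=
  Finset.univ.filter (fun w => lexLE (sig w) s)

/-- the better family: words of length 3 all of whose deletions avoid first symbol `3` -/
def G : Finset (Word 4 3) := Finset.univ.filter (fun w => ∀ p, del w p 0 ≠ 2)

set_option maxRecDepth 100000 in
lemma card_fam : (fam 4 3 ![1, 0, 1, 1]).card = 36 := by decide +kernel

set_option maxRecDepth 100000 in
lemma card_shadow_fam : (shadow (fam 4 3 ![1, 0, 1, 1])).card = 13 := by decide +kernel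

set_option maxRecDepth 100000 in
lemma card_G : G.card = 36 := by decide +kernel

set_option maxRecDepth 100000 in
lemma card_shadow_G : (shadow G).card = 12 := by decide +kernel

/-- For `r = 4`, `n = 3` and the signature `s = (1,0,1,1)` the lexicographic initial segment
`F_s` does not have minimal deletion shadow given its size. -/
theorem result : ∃ (r n : ℕ) (s : Fin r → ℕ), 2 ≤ r ∧ 1 ≤ n + 1 ∧ (∑ i, s i) = n + 1 ∧
    ∃ H : Finset (Word r (n + 1)), H.card = (fam r (n + 1) s).card ∧
      (shadow H).card < (shadow (fam r (n + 1) s)).card := by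
  refine ⟨4, 2, ![1, 0, 1, 1], by norm_num, by norm_num, by decide, G, ?_, ?_⟩
  · rw [card_G, card_fam]
  · rw [card_shadow_G, card_shadow_fam]; norm_num

end Pool.Agent.Results.MP_5f67f4_co.LexSegment
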